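import Pool.Agent.Helper33.DZ.Stmts

set_option autoImplicit false

/-! # Euler's formula for sums of products of even zeta values (module EULC) -/

open Finset PowerSeries

namespace Pool.Agent.Helper33.DZ

/-- `B_n / n!` -/
noncomputable def eulc_b (n : ℕ) : ℚ := bernoulli n / (n.factorial : ℚ)

theorem eulc_coeff (n : ℕ) : coeff n (bernoulliPowerSeries ℚ) = eulc_b n := by
  simp [bernoulliPowerSeries, eulc_b]

theorem eulc_ps : X * (d⁄dX ℚ (bernoulliPowerSeries ℚ)) + X * bernoulliPowerSeries ℚ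
    + bernoulliPowerSeries ℚ * bernoulliPowerSeries ℚ = bernoulliPowerSeries ℚ := by
  set f := bernoulliPowerSeries ℚ with hf
  have h1 : f * (exp ℚ - 1) = X := bernoulliPowerSeries_mul_exp_sub_one ℚ
  have h2 : d⁄dX ℚ (f * (exp ℚ - 1)) = 1 := by
    rw [h1]
    simp
  rw [Derivation.leibniz, smul_eq_mul, smul_eq_mul, map_sub, derivative_exp] at h2
  have h3 : d⁄dX ℚ (1 : ℚ⟦X⟧) = 0 := by simp
  rw [h3, sub_zero] at h2
  have h4 : f * exp ℚ = X + f := by
    have : f * (exp ℚ - 1) = f * exp ℚ - f := by ring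
    rw [this] at h1
    rw [← h1]
    ring
  have h5 : f * (f * exp ℚ + (exp ℚ - 1) * d⁄dX ℚ f) = f := by rw [h2, mul_one]
  have h6 : f * (f * exp ℚ + (exp ℚ - 1) * d⁄dX ℚ f) =
      f * (f * exp ℚ) + (f * (exp ℚ - 1)) * d⁄dX ℚ f := by ring
  rw [h6, h1, h4] at h5
  linear_combination h5

theorem eulc_split (F : ℕ → ℚ) (m : ℕ) : ∑ i ∈ range (2 * m + 1), F i =
    ∑ i ∈ range (m + 1), F (2 * i) + ∑ i ∈ range m, F (2 * i + 1) := by
  induction m with
  | zero => simp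
  | succ m ih =>
    have h1 : 2 * (m + 1) + 1 = 2 * m + 1 + 1 + 1 := by ring
    rw [h1, sum_range_succ, sum_range_succ, ih, sum_range_succ (fun i => F (2 * i)) (m + 1),
      sum_range_succ (fun i => F (2 * i + 1)) m]
    have h2 : 2 * (m + 1) = 2 * m + 1 + 1 := by ring
    rw [h2]
    ring

theorem eulc_sum (m : ℕ) (hm : 2 ≤ m) :
    ∑ j ∈ Icc 1 (m - 1), eulc_b (2 * j) * eulc_b (2 * m - 2 * j) =
      -(2 * (m : ℚ) + 1) * eulc_b (2 * m) := by
  obtain ⟨k, rfl⟩ : ∃ k, m = k + 2 := ⟨m - 2, by omega⟩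
  have h1 := congrArg (coeff (2 * (k + 2))) eulc_ps
  rw [map_add, map_add] at h1
  have h2 : 2 * (k + 2) = (2 * k + 3) + 1 := by ring
  have h3 : coeff (2 * (k + 2)) (X * (d⁄dX ℚ (bernoulliPowerSeries ℚ))) =
      (2 * ((k : ℚ) + 2)) * eulc_b (2 * (k + 2)) := by
    rw [h2, coeff_succ_X_mul, coeff_derivative, eulc_coeff]
    push_cast
    ring
  have h4 : coeff (2 * (k + 2)) (X * bernoulliPowerSeries ℚ) = 0 := by
    rw [h2, coeff_succ_X_mul, eulc_coeff, eulc_b, bernoulli_eq_zero_of_odd]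
    · simp
    · exact ⟨k + 1, by ring⟩
    · omega
  have hodd : ∀ i, eulc_b (2 * i + 1) * eulc_b (2 * (k + 2) - (2 * i + 1)) = 0 ∨
      k + 2 ≤ i := by
    intro i
    by_cases hi : k + 2 ≤ i
    · exact Or.inr hi
    left
    rcases Nat.eq_zero_or_pos i with h0 | h0
    · rw [h0]
      have h5 : eulc_b (2 * (k + 2) - (2 * 0 + 1)) = 0 := by
        rw [eulc_b, bernoulli_eq_zero_of_odd]
        · simp
        · exact ⟨k + 1, by omega⟩
        · omega
      rw [h5, mul_zero]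
    · have h5 : eulc_b (2 * i + 1) = 0 := by
        rw [eulc_b, bernoulli_eq_zero_of_odd]
        · simp
        · exact ⟨i, by omega⟩
        · omega
      rw [h5, zero_mul]
  have h5 : coeff (2 * (k + 2)) (bernoulliPowerSeries ℚ * bernoulliPowerSeries ℚ) =
      2 * eulc_b (2 * (k + 2)) +
        ∑ j ∈ Icc 1 (k + 1), eulc_b (2 * j) * eulc_b (2 * (k + 2) - 2 * j) := by
    rw [coeff_mul]
    simp only [eulc_coeff]
    rw [Finset.Nat.sum_antidiagonal_eq_sum_range_succ (fun i j => eulc_b i * eulc_b j)]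
    rw [eulc_split]
    have h6 : ∑ i ∈ range (k + 2), eulc_b (2 * i + 1) * eulc_b (2 * (k + 2) - (2 * i + 1)) = 0 := by
      apply sum_eq_zero
      intro i hi
      rcases hodd i with h | h
      · exact h
      · have := mem_range.1 hi
        omega
    rw [h6, add_zero, sum_range_succ]
    have h7 : range (k + 2) = Ico 0 (k + 2) := range_eq_Ico (k + 2)
    rw [h7, sum_eq_sum_Ico_succ_bot (by omega)]
    have h8 : Icc 1 (k + 1) = Ico (0 + 1) (k + 2) := by
      ext i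
      simp only [mem_Icc, mem_Ico]
      omega
    rw [h8]
    have h9 : eulc_b 0 = 1 := by simp [eulc_b]
    have h10 : 2 * (k + 2) - 2 * (k + 2) = 0 := by omega
    rw [h10, mul_zero, h9, Nat.sub_zero]
    ring
  rw [h3, h4, h5, eulc_coeff] at h1
  have h11 : k + 2 - 1 = k + 1 := by omega
  rw [h11]
  push_cast
  linarith

theorem eulc_zt (k : ℕ) (hk : 1 ≤ k) :
    zt (2 * k) = (-1 : ℝ) ^ (k + 1) * (2 : ℝ) ^ (2 * k - 1) * Real.pi ^ (2 * k) *
      ((eulc_b (2 * k) : ℚ) : ℝ) := by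
  have h1 := (hasSum_nat_add_iff' 1).mpr (hasSum_zeta_nat (k := k) (by omega))
  have h2 := h1.tsum_eq
  rw [zt, h2]
  simp only [range_one, sum_singleton, Nat.cast_zero]
  rw [zero_pow (by omega), div_zero, sub_zero, eulc_b]
  push_cast
  ring

theorem st_EULC : ST_EULC := by
  intro m hm
  have h1 : ∀ j ∈ Icc 1 (m - 1), zt (2 * j) * zt (2 * m - 2 * j) =
      (-1 : ℝ) ^ m * (2 : ℝ) ^ (2 * m - 2) * Real.pi ^ (2 * m) *
        ((eulc_b (2 * j) * eulc_b (2 * m - 2 * j) : ℚ) : ℝ) := by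
    intro j hj
    obtain ⟨hj1, hj2⟩ := mem_Icc.1 hj
    have h2 : 2 * m - 2 * j = 2 * (m - j) := by omega
    rw [h2, eulc_zt j hj1, eulc_zt (m - j) (by omega)]
    have h3 : (-1 : ℝ) ^ m = (-1 : ℝ) ^ (j + 1) * (-1 : ℝ) ^ (m - j + 1) := by
      rw [← pow_add]
      have h4 : j + 1 + (m - j + 1) = m + 2 := by omega
      rw [h4, pow_add]
      norm_num
    have h5 : (2 : ℝ) ^ (2 * m - 2) = (2 : ℝ) ^ (2 * j - 1) * (2 : ℝ) ^ (2 * (m - j) - 1) := by
      rw [← pow_add]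
      congr 1
      omega
    have h6 : Real.pi ^ (2 * m) = Real.pi ^ (2 * j) * Real.pi ^ (2 * (m - j)) := by
      rw [← pow_add]
      congr 1
      omega
    rw [h3, h5, h6]
    push_cast
    ring
  rw [sum_congr rfl h1, ← mul_sum]
  have h7 : ∑ j ∈ Icc 1 (m - 1), ((eulc_b (2 * j) * eulc_b (2 * m - 2 * j) : ℚ) : ℝ) =
      ((-(2 * (m : ℚ) + 1) * eulc_b (2 * m) : ℚ) : ℝ) := by
    rw [← eulc_sum m hm]
    push_cast
    rfl
  rw [h7, eulc_zt m (by omega)]
  have h8 : (2 : ℝ) ^ (2 * m - 1) = (2 : ℝ) ^ (2 * m - 2) * 2 := by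
    rw [← pow_succ]
    congr 1
    omega
  rw [h8, pow_succ (-1 : ℝ) m]
  push_cast
  ring

end Pool.Agent.Helper33.DZ
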